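import Mathlib
import Pool.Agent.Helper5.NE.Stmts

/-! P18: almost disjoint family, codes, nonseparability. -/

namespace Pool.Agent.Helper22.NE

open Pool.Agent.Helper5.NE
open scoped InnerProductSpace ComplexConjugate ENNReal Topology
open Filter

noncomputable section

/-- the list of the first `n` values -/
def pre (f : ℕ → Bool) (n : ℕ) : List Bool := (List.range n).map f

theorem pre_len (f : ℕ → Bool) (n : ℕ) : (pre f n).length = n := by simp [pre]

theorem pre_inj {f : ℕ → Bool} {n m : ℕ} (h : pre f n = pre f m) : n = m := by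
  rw [← pre_len f n, h, pre_len]

theorem pre_eq {f g : ℕ → Bool} {n : ℕ} (h : pre f n = pre g n) {i : ℕ} (hi : i < n) :
    f i = g i := by
  unfold pre at h
  exact List.map_inj_left.1 h i (List.mem_range.2 hi)

theorem adFam : ADStmt := by
  refine ⟨fun f => Set.range (fun n => 2 * Encodable.encode (pre f n)), ?_, ?_, ?_⟩
  · intro f
    refine Set.infinite_range_of_injective (fun n m h => ?_)
    have h2 : Encodable.encode (pre f n) = Encodable.encode (pre f m) := by
      have : 2 * Encodable.encode (pre f n) = 2 * Encodable.encode (pre f m) := h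
      omega
    exact pre_inj (Encodable.encode_injective h2)
  · rintro f _ ⟨n, rfl⟩
    exact even_two_mul _
  · intro f g hfg
    obtain ⟨k, hk⟩ : ∃ k, f k ≠ g k := by
      by_contra hcon
      push Not at hcon
      exact hfg (funext hcon)
    refine Set.Finite.subset ((Set.finite_le_nat k).image
      (fun n => 2 * Encodable.encode (pre f n))) ?_
    rintro _ ⟨⟨n, rfl⟩, ⟨m, hm⟩⟩
    refine ⟨n, ?_, rfl⟩
    have h2 : Encodable.encode (pre g m) = Encodable.encode (pre f n) := by
      have : 2 * Encodable.encode (pre g m) = 2 * Encodable.encode (pre f n) := hm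
      omega
    have h3 := Encodable.encode_injective h2
    have h4 : m = n := by rw [← pre_len g m, h3, pre_len]
    subst h4
    show m ≤ k
    by_contra hcon
    push Not at hcon
    exact hk (pre_eq h3 hcon).symm

theorem mk_cantor : Cardinal.mk (ℕ → Bool) = Cardinal.continuum := by simp

theorem code : CodeStmt := by
  have h1 : Cardinal.mk (ℕ → X → X → ℂ) ≤ Cardinal.mk (ℕ → Bool) := by
    rw [mk_cantor]
    have e : (ℕ → X → X → ℂ) ≃ (ℕ × X × X → ℂ) :=
      ((Equiv.refl ℕ).arrowCongr (Equiv.curry X X ℂ).symm).trans (Equiv.curry ℕ (X × X) ℂ).symm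
    rw [Cardinal.mk_congr e]
    have h2 : Cardinal.mk (ℕ × X × X → ℂ) = Cardinal.mk ℂ ^ Cardinal.mk (ℕ × X × X) := by simp
    rw [h2, Cardinal.mk_complex]
    calc Cardinal.continuum ^ Cardinal.mk (ℕ × X × X)
        ≤ Cardinal.continuum ^ Cardinal.aleph0 :=
          Cardinal.power_le_power_left Cardinal.continuum_ne_zero Cardinal.mk_le_aleph0
      _ = Cardinal.continuum := by simp
  obtain ⟨e⟩ := h1
  exact ⟨Function.invFun e, Function.invFun_surjective e.injective⟩

/-- the characteristic function transported to odd numbers -/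
def odc (χ : ℕ → Bool) : ℕ → Bool := fun n => χ (n / 2)

theorem oddc_bd (χ : ℕ → Bool) : Bd (oddc χ) := by
  refine ⟨1, fun u => ?_⟩
  unfold oddc
  split_ifs <;> simp

theorem nonSep : NonSepStmt := by
  intro F A bd hsep
  have hmem : ∀ χ : ℕ → Bool, wp 1 (oddc χ) ∈ Alg A bd := fun χ =>
    StarSubalgebra.le_topologicalClosure _ (StarAlgebra.subset_adjoin ℂ _ (Or.inr (Or.inl ⟨χ, rfl⟩)))
  let T : (ℕ → Bool) → Alg A bd := fun χ => ⟨wp 1 (oddc (odc χ)), hmem _⟩
  have hdist : ∀ χ χ' : ℕ → Bool, χ ≠ χ' → 1 ≤ dist (T χ) (T χ') := by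
    intro χ χ' hne
    obtain ⟨i, hi⟩ : ∃ i, χ i ≠ χ' i := by
      by_contra hcon
      push Not at hcon
      exact hne (funext hcon)
    have h0 : dist (T χ) (T χ') = ‖wp 1 (oddc (odc χ)) - wp 1 (oddc (odc χ'))‖ := by
      rw [Subtype.dist_eq, dist_eq_norm]
    rw [h0]
    let u : X := (RW.nil, 2 * i + 1)
    have h1 : (wp 1 (oddc (odc χ)) - wp 1 (oddc (odc χ'))) (del u) =
        (oddc (odc χ) u - oddc (odc χ') u) • del u := by
      rw [sub_apply, wp_del _ (oddc_bd _), wp_del _ (oddc_bd _), sub_smul]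
      rfl
    have h2 : ‖oddc (odc χ) u - oddc (odc χ') u‖ = 1 := by
      have hodd : Odd u.2 := ⟨i, rfl⟩
      have e1 : odc χ u.2 = χ i := by
        show χ ((2 * i + 1) / 2) = χ i
        congr 1; omega
      have e2 : odc χ' u.2 = χ' i := by
        show χ' ((2 * i + 1) / 2) = χ' i
        congr 1; omega
      unfold oddc
      rw [e1, e2]
      rcases h3 : χ i with _ | _ <;> rcases h4 : χ' i with _ | _ <;> simp_all
    have h3 := ContinuousLinearMap.le_opNorm (wp 1 (oddc (odc χ)) - wp 1 (oddc (odc χ'))) (del u)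
    rw [h1, norm_smul, h2, norm_del] at h3
    simpa using h3
  have hcount : (Set.univ : Set (ℕ → Bool)).Countable := by
    refine Set.PairwiseDisjoint.countable_of_isOpen
      (s := fun χ : ℕ → Bool => Metric.ball (T χ) (1 / 2)) ?_ (fun χ _ => Metric.isOpen_ball)
      (fun χ _ => ⟨T χ, Metric.mem_ball_self (by norm_num)⟩)
    intro χ _ χ' _ hne
    refine Metric.ball_disjoint_ball ?_
    have := hdist χ χ' hne
    linarith
  have h5 : Countable (ℕ → Bool) := Set.countable_univ_iff.1 hcount
  have h6 : Cardinal.mk (ℕ → Bool) ≤ Cardinal.aleph0 := Cardinal.mk_le_aleph0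
  rw [mk_cantor] at h6
  exact absurd h6 (not_le.2 Cardinal.aleph0_lt_continuum)

end

end Pool.Agent.Helper22.NE
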